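import Pool.Agent.Helper60.DG3.Num2

/-!
# Threads: numbers of the layout of a grid

First half: `Helper29/DG3/Num1.lean`, second half: `Helper60/DG3/Num2.lean`.
-/
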