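import Pool.Agent.Helper59.DG3.Lay
import Pool.Agent.Helper68.RAC1.Sail
import Pool.Agent.Helper68.RAC1.Par

/-!
# Threads: numbers of the layout of a grid (first part)

`pp m` is the base of the strip of the link `t = 2 m` (vertical), `qq m` the base of the strip of
the link `t = 2 m + 1` (horizontal).
-/

set_option autoImplicit false

namespace Pool.Agent.Helper59.DG3

open Pool.Agent.Helper58.DG3

/-- the strip of `p` lies in the region of the net -/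
def Room (π : Par) (p : ℤ × ℤ) : Prop :=
  1 ≤ p.1 ∧ 1 ≤ p.2 ∧ p.1 + p.2 + π.R + 7 ≤ π.M

theorem R_pos' (π : Par) : 0 < (π.R : ℤ) := by
  have : 0 < π.R := Nat.fib_pos.2 (by omega)
  exact_mod_cast this

theorem lat (π : Par) : Lat (π.R : ℤ) (InL π.D) where
  hR := R_pos' π
  col := by
    rintro ⟨a, b⟩ ⟨a', b'⟩ h h' e
    simp only at e
    subst e
    obtain ⟨u, hu⟩ := h
    obtain ⟨w, hw⟩ := h'
    obtain ⟨t, ht⟩ := Pool.Agent.Helper68.RAC1.par_dvd_sq π.D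
    have e : (π.R : ℤ) = (Nat.fib (2 * π.D + 2) : ℤ) := rfl
    rw [e]
    simp only at hu hw ⊢
    -- c (b - b') = -(hu - hw), multiply by c
    refine ⟨-(t * (b - b')) - (Nat.fib (2 * π.D) : ℤ) * (u - w), ?_⟩
    linear_combination (b - b') * (-ht) - (Nat.fib (2 * π.D) : ℤ) * (hu - hw)
  row := by
    rintro ⟨a, b⟩ ⟨a', b'⟩ h h' e
    simp only at e
    subst e
    obtain ⟨u, hu⟩ := h
    obtain ⟨w, hw⟩ := h'
    have e : (π.R : ℤ) = (Nat.fib (2 * π.D + 2) : ℤ) := rfl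
    rw [e]
    simp only at hu hw ⊢
    refine ⟨u - w, ?_⟩
    linear_combination hu - hw

variable {π : Par} {k k' x y x' y' m m' : ℕ}

theorem cl_num (h : π.Cl k) :
    0 < π.fx k ∧ 2 * π.fx k < π.R ∧ 0 < π.fy k ∧ 2 * π.fy k < π.R := by
  have h1 := h.1
  have h2 := h.2
  have a1 : 0 < π.fx k := Nat.fib_pos.2 (by omega)
  have a2 : 0 < π.fy k := Nat.fib_pos.2 (by omega)
  have a3 := Pool.Agent.Helper68.RAC1.two_vv_fst_lt (j := k) (D := π.D) (by omega)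
  have a4 := Pool.Agent.Helper68.RAC1.lt_two_vv_snd (j := k) (D := π.D) (by omega) (by omega)
  have e1 : (Pool.Agent.Helper68.RAC1.vv π.D k).1 = (π.fx k : ℤ) := rfl
  have e2 : (Pool.Agent.Helper68.RAC1.vv π.D k).2 = -(π.fy k : ℤ) := rfl
  have e3 : Pool.Agent.Helper68.RAC1.RR π.D = (π.R : ℤ) := rfl
  rw [e1, e3] at a3
  rw [e2, e3] at a4
  refine ⟨a1, ?_, a2, ?_⟩ <;> omega

theorem pp_inL (h : π.St k x y) (m : ℕ) : InL π.D (π.pp k x y m) := by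
  obtain ⟨u, hu⟩ := Pool.Agent.Helper68.RAC1.par_dvd (D := π.D) (k := k) (by have := h.1.2; omega)
  obtain ⟨w, hw⟩ := h.2.1
  refine ⟨w + m + Nat.fib (2 * π.D) + Nat.fib (2 * π.D) * m - 2 * m * u, ?_⟩
  have e : (π.R : ℤ) = (Nat.fib (2 * π.D + 2) : ℤ) := rfl
  have e1 : (π.fx k : ℤ) = (Nat.fib (2 * k + 1) : ℤ) := rfl
  have e2 : (π.fy k : ℤ) = (Nat.fib (2 * (π.D - k) + 1) : ℤ) := rfl
  unfold Par.pp
  rw [e, e1, e2]
  simp only at hw ⊢
  linear_combination hw - 2 * (m : ℤ) * hu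

theorem qq_inL (h : π.St k x y) (m : ℕ) : InL π.D (π.qq k x y m) := by
  obtain ⟨u, hu⟩ := Pool.Agent.Helper68.RAC1.par_dvd (D := π.D) (k := k) (by have := h.1.2; omega)
  obtain ⟨w, hw⟩ := pp_inL h m
  refine ⟨w - u, ?_⟩
  have e1 : (π.fx k : ℤ) = (Nat.fib (2 * k + 1) : ℤ) := rfl
  have e2 : (π.fy k : ℤ) = (Nat.fib (2 * (π.D - k) + 1) : ℤ) := rfl
  unfold Par.qq
  rw [e1, e2]
  simp only at hw ⊢
  linear_combination hw - hu

/-- the bounds of the bases -/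
theorem pp_bd (h : π.St k x y) (hm : m ≤ π.l) :
    (x : ℤ) ≤ (π.pp k x y m).1 ∧ (π.pp k x y m).1 ≤ x + π.l * π.R ∧
      (y : ℤ) - (π.l + 1) * π.R ≤ (π.pp k x y m).2 ∧ (π.pp k x y m).2 ≤ y - π.R := by
  obtain ⟨a1, a2, a3, a4⟩ := cl_num h.1
  have hm' : (m : ℤ) ≤ π.l := by exact_mod_cast hm
  have hm0 : (0 : ℤ) ≤ m := by positivity
  have hR := R_pos' π
  have b1 : 0 < (π.R : ℤ) - 2 * π.fx k := by
    have : (2 * π.fx k : ℤ) < π.R := by exact_mod_cast a2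
    linarith
  have b2 : 0 < (π.R : ℤ) - 2 * π.fy k := by
    have : (2 * π.fy k : ℤ) < π.R := by exact_mod_cast a4
    linarith
  have b3 : (0 : ℤ) < π.fx k := by exact_mod_cast a1
  have b4 : (0 : ℤ) < π.fy k := by exact_mod_cast a3
  have c1 : (m : ℤ) * ((π.R : ℤ) - 2 * π.fx k) ≤ π.l * π.R :=
    mul_le_mul hm' (by linarith) b1.le (by linarith)
  have c2 : (m : ℤ) * ((π.R : ℤ) - 2 * π.fy k) ≤ π.l * π.R :=
    mul_le_mul hm' (by linarith) b2.le (by linarith)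
  have c3 : 0 ≤ (m : ℤ) * ((π.R : ℤ) - 2 * π.fx k) := mul_nonneg hm0 b1.le
  have c4 : 0 ≤ (m : ℤ) * ((π.R : ℤ) - 2 * π.fy k) := mul_nonneg hm0 b2.le
  unfold Par.pp
  refine ⟨by linarith, by linarith, by linarith, by linarith⟩

theorem G_eq : (π.G : ℤ) = (4 * (π.l : ℤ) + 8) * π.R := by
  unfold Par.G
  push_cast
  ring

theorem G_ge : (4 * (π.l : ℤ) * π.R + 8 * π.R ≤ π.G) ∧ (π.l : ℤ) * π.R + 8 ≤ π.G := by
  rw [G_eq]
  have hR := R_pos' π
  have h1 : 0 ≤ (π.l : ℤ) * π.R := by positivity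
  constructor <;> nlinarith

theorem room_pp (h : π.St k x y) (hm : m ≤ π.l) : Room π (π.pp k x y m) := by
  obtain ⟨a1, a2, a3, a4⟩ := pp_bd h hm
  obtain ⟨-, -, g1, g2, g3, -⟩ := h
  obtain ⟨e1, e2⟩ := G_ge (π := π)
  have hR := R_pos' π
  have h1 : 0 ≤ (π.l : ℤ) * π.R := by positivity
  have g1' : (π.G : ℤ) ≤ x := by exact_mod_cast g1
  have g2' : (π.G : ℤ) ≤ y := by exact_mod_cast g2
  have g3' : (x : ℤ) + y + π.G ≤ π.M := by exact_mod_cast g3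
  refine ⟨by nlinarith, by nlinarith, by nlinarith⟩

theorem room_qq (h : π.St k x y) (hm : m ≤ π.l) : Room π (π.qq k x y m) := by
  obtain ⟨a1, a2, a3, a4⟩ := pp_bd h hm
  obtain ⟨b1, b2, b3, b4⟩ := cl_num h.1
  obtain ⟨-, -, g1, g2, g3, -⟩ := h
  obtain ⟨e1, e2⟩ := G_ge (π := π)
  have hR := R_pos' π
  have h1 : 0 ≤ (π.l : ℤ) * π.R := by positivity
  have g1' : (π.G : ℤ) ≤ x := by exact_mod_cast g1
  have g2' : (π.G : ℤ) ≤ y := by exact_mod_cast g2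
  have g3' : (x : ℤ) + y + π.G ≤ π.M := by exact_mod_cast g3
  have c1 : (0 : ℤ) < π.fx k := by exact_mod_cast b1
  have c2 : 2 * (π.fx k : ℤ) < π.R := by exact_mod_cast b2
  have c3 : (0 : ℤ) < π.fy k := by exact_mod_cast b3
  have c4 : 2 * (π.fy k : ℤ) < π.R := by exact_mod_cast b4
  unfold Par.qq
  refine ⟨?_, ?_, ?_⟩ <;> simp only <;> nlinarith

theorem room_xy (h : π.St k x y) : Room π ((x : ℤ), (y : ℤ)) := by
  obtain ⟨-, -, g1, g2, g3, -⟩ := h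
  obtain ⟨e1, e2⟩ := G_ge (π := π)
  have hR := R_pos' π
  have h1 : 0 ≤ (π.l : ℤ) * π.R := by positivity
  have g1' : (π.G : ℤ) ≤ x := by exact_mod_cast g1
  have g2' : (π.G : ℤ) ≤ y := by exact_mod_cast g2
  have g3' : (x : ℤ) + y + π.G ≤ π.M := by exact_mod_cast g3
  refine ⟨?_, ?_, ?_⟩ <;> simp only <;> nlinarith

theorem pp_inj (h : π.St k x y) (h' : π.St k x' y') (hm : m ≤ π.l) (hm' : m' ≤ π.l)
    (e : π.pp k x y m = π.pp k x' y' m') : x = x' ∧ y = y' ∧ m = m' := by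
  obtain ⟨a1, a2, a3, a4⟩ := cl_num h.1
  have s := h.2.2.2.2.2
  have s' := h'.2.2.2.2.2
  obtain ⟨w, hw⟩ : ∃ w, w = π.R - 2 * π.fx k := ⟨_, rfl⟩
  have hw0 : 0 < w := by omega
  have hwz : (w : ℤ) = (π.R : ℤ) - 2 * π.fx k := by rw [hw]; push_cast [Nat.cast_sub a2.le]; ring
  unfold Par.pp at e
  rw [Prod.mk.injEq, ← hwz] at e
  obtain ⟨e1, e2⟩ := e
  have e1' : x + m * w = x' + m' * w := by exact_mod_cast e1
  rw [← hw] at s s'
  have d1 : (x + m * w) / w = x / w + m := Nat.add_mul_div_right _ _ hw0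
  have d2 : (x' + m' * w) / w = x' / w + m' := Nat.add_mul_div_right _ _ hw0
  rw [e1', d2] at d1
  have r1 : (x / w + m) % (π.l + 1) = m := by
    rw [Nat.add_mod, s, zero_add, Nat.mod_mod, Nat.mod_eq_of_lt (by omega)]
  have r2 : (x' / w + m') % (π.l + 1) = m' := by
    rw [Nat.add_mod, s', zero_add, Nat.mod_mod, Nat.mod_eq_of_lt (by omega)]
  have hmm : m = m' := by rw [← r1, ← r2, d1]
  subst hmm
  refine ⟨by omega, ?_, rfl⟩
  have : (y : ℤ) = y' := by linarith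
  exact_mod_cast this

theorem qq_inj (h : π.St k x y) (h' : π.St k x' y') (hm : m ≤ π.l) (hm' : m' ≤ π.l)
    (e : π.qq k x y m = π.qq k x' y' m') : x = x' ∧ y = y' ∧ m = m' := by
  refine pp_inj h h' hm hm' ?_
  unfold Par.qq at e
  rw [Prod.mk.injEq] at e
  exact Prod.ext (by linarith [e.1]) (by linarith [e.2])

end Pool.Agent.Helper59.DG3
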