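import Pool.Agent.Helper59.DG3.PairDefs

/-!
# Threads: which edges can share a point
-/

set_option autoImplicit false
set_option linter.unusedVariables false

namespace Pool.Agent.Helper29.DG3

open Pool.Agent.Helper59.DG3

variable {R : ℤ} {L : ℤ × ℤ → Prop} {x y : ℝ} {k k' : ℕ} {p p' q q' : ℤ × ℤ}

theorem ecell_eq {i j : ℤ} {x : ℝ} (h1 : 2 * (i : ℝ) + 4 < x) (h2 : x < 2 * (i : ℝ) + 6)
    (h3 : 2 * (j : ℝ) + 4 < x) (h4 : x < 2 * (j : ℝ) + 6) : i = j := by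
  have e1 : (i : ℝ) < j + 1 := by linarith
  have e2 : (j : ℝ) < i + 1 := by linarith
  have e1' : i < j + 1 := by exact_mod_cast e1
  have e2' : j < i + 1 := by exact_mod_cast e2
  omega

theorem strip_le {R a b : ℤ} (hd : R ∣ b - a) (h : a < b) : a + R ≤ b := by
  have := Int.le_of_dvd (by omega) hd
  omega

/-- integers from an inequality of real numbers -/
theorem int_lt {a b : ℤ} (h : (a : ℝ) < b) : a < b := by exact_mod_cast h

theorem int_lt_add {a b R : ℤ} (h : (a : ℝ) < b + R) : a < b + R := by exact_mod_cast h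

theorem cast_strip {a b R : ℤ} (h : a + R ≤ b) : (a : ℝ) + R ≤ b := by exact_mod_cast h

/-- the place of a point of `Tv` -/
theorem tv_cell (h1 : Tv R L k p x y) : 2 * (p.1 : ℝ) + 4 < x ∧ x < 2 * (p.1 : ℝ) + 6 := by
  obtain ⟨-, e, -, -⟩ := h1
  have a := xi_ge k
  have b := xi_lt k
  constructor <;> linarith

theorem th_cell (h1 : Th R L k p x y) : 2 * (p.2 : ℝ) + 4 < y ∧ y < 2 * (p.2 : ℝ) + 6 := by
  obtain ⟨-, e, -, -⟩ := h1
  have a := xi_ge k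
  have b := xi_lt k
  constructor <;> linarith

theorem dg_cell (h1 : Dg L p x y) : 2 * (p.1 : ℝ) + 4 < x ∧ x < 2 * (p.1 : ℝ) + 6 ∧
    2 * (p.2 : ℝ) + 4 < y ∧ y < 2 * (p.2 : ℝ) + 6 := by
  obtain ⟨-, a, b, c⟩ := h1
  refine ⟨a, b, ?_, ?_⟩ <;> linarith

/-- the place of a point of `Ts`: in the cell of `p` and strictly below the diagonal, strictly above
the curve -/
theorem ts_cell (h1 : Ts L k p x y) : 2 * (p.1 : ℝ) + 4 < x ∧ x < 2 * (p.1 : ℝ) + 6 ∧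
    2 * (p.2 : ℝ) + 4 < y ∧ y < 2 * (p.2 : ℝ) + 6 ∧
    y - 2 * (p.2 : ℝ) < x - 2 * (p.1 : ℝ) ∧
    (x - (2 * (p.1 : ℝ) + 4)) ^ 2 / 2 < y - (2 * (p.2 : ℝ) + 4) := by
  obtain ⟨-, a, b, c⟩ := h1
  have e1 := xi_ge k
  have e2 := xi_lt k
  have h0 : 0 < 2 * (p.1 : ℝ) + 6 - x := by linarith
  have h2 : 0 < x - (2 * (p.1 : ℝ) + 4 + xi k) := by linarith
  have h3 := mul_pos h0 h2
  refine ⟨by linarith, b, ?_, ?_, ?_, ?_⟩ <;> nlinarith

/-- the place of a point of `Te` -/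
theorem te_cell (h1 : Te L k p x y) : 2 * (p.1 : ℝ) + 4 < x ∧ x < 2 * (p.1 : ℝ) + 6 ∧
    2 * (p.2 : ℝ) + 4 < y ∧ y < 2 * (p.2 : ℝ) + 6 ∧
    x - 2 * (p.1 : ℝ) < y - 2 * (p.2 : ℝ) ∧
    y - (2 * (p.2 : ℝ) + 6) < -(2 * (p.1 : ℝ) + 6 - x) ^ 2 / 2 := by
  obtain ⟨-, a, b, c⟩ := h1
  have e1 := xi_ge k
  have e2 := xi_lt k
  have h0 : 0 < x - (2 * (p.1 : ℝ) + 4) := by linarith
  have h2 : 0 < 2 * (p.1 : ℝ) + 4 + xi k - x := by linarith
  have h3 := mul_pos h0 h2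
  have h4 : y - (2 * (p.2 : ℝ) + 6) < -(2 * (p.1 : ℝ) + 6 - x) ^ 2 / 2 := by nlinarith
  refine ⟨a, by linarith, ?_, ?_, ?_, h4⟩
  · nlinarith
  · nlinarith [sq_nonneg (2 * (p.1 : ℝ) + 6 - x)]
  · nlinarith

/-- `Tv` in terms of `x` only -/
theorem tv_bd (h1 : Tv R L k p x y) :
    2 * (p.2 : ℝ) + 6 - (2 * (p.1 : ℝ) + 6 - x) ^ 2 / 2 < y ∧
      y < 2 * ((p.2 : ℝ) + R) + 4 + (x - (2 * (p.1 : ℝ) + 4)) ^ 2 / 2 := by
  obtain ⟨-, e, a, b⟩ := h1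
  have e1 : 2 * (p.1 : ℝ) + 6 - x = 2 - xi k := by linarith
  have e2 : x - (2 * (p.1 : ℝ) + 4) = xi k := by linarith
  rw [e1, e2]
  exact ⟨a, b⟩

theorem tv_tv (h : Lat R L) (h1 : Tv R L k p x y) (h2 : Tv R L k' p' x y) :
    k = k' ∧ p = p' := by
  obtain ⟨a1, a2⟩ := tv_cell h1
  obtain ⟨b1, b2⟩ := tv_cell h2
  have e1 := ecell_eq a1 a2 b1 b2
  have hk : k = k' := by
    apply xi_inj
    have c1 := h1.2.1
    have c2 := h2.2.1
    rw [← e1] at c2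
    linarith
  subst hk
  have g1 := h1.2.2
  have g2 := h2.2.2
  have x1 := xi_ge k
  have x2 := xi_lt k
  have hx : 0 < xi k * (2 - xi k) := mul_pos (by linarith) (by linarith)
  refine ⟨rfl, Prod.ext e1 ?_⟩
  rcases lt_trichotomy p.2 p'.2 with hlt | heq | hlt
  · exfalso
    have h5 := cast_strip (strip_le (h.col p' p h2.1 h1.1 e1.symm) hlt)
    nlinarith [g1.2, g2.1]
  · exact heq
  · exfalso
    have h5 := cast_strip (strip_le (h.col p p' h1.1 h2.1 e1) hlt)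
    nlinarith [g1.1, g2.2]

theorem tv_ts (h : Lat R L) (h1 : Tv R L k p x y) (h2 : Ts L k' p' x y) :
    False := by
  obtain ⟨a1, a2⟩ := tv_cell h1
  obtain ⟨b1, b2, b3, b4, b5, b6⟩ := ts_cell h2
  obtain ⟨c1, c2⟩ := tv_bd h1
  have e1 := ecell_eq a1 a2 b1 b2
  have e1' : (p.1 : ℝ) = p'.1 := by rw [e1]
  rw [e1'] at c1 c2
  have h5 : p'.2 < p.2 + R := by
    apply int_lt_add
    linarith
  have h6 : p'.2 ≤ p.2 := by
    by_contra hcon
    push Not at hcon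
    have := strip_le (h.col p' p h2.1 h1.1 e1.symm) hcon
    omega
  have h7 : (p'.2 : ℝ) ≤ p.2 := by exact_mod_cast h6
  nlinarith

theorem tv_te (h : Lat R L) (h1 : Tv R L k p x y) (h2 : Te L k' p' x y) :
    False := by
  obtain ⟨a1, a2⟩ := tv_cell h1
  obtain ⟨b1, b2, b3, b4, b5, b6⟩ := te_cell h2
  obtain ⟨c1, c2⟩ := tv_bd h1
  have e1 := ecell_eq a1 a2 b1 b2
  have e1' : (p.1 : ℝ) = p'.1 := by rw [e1]
  rw [e1'] at c1 c2
  have h5 : p.2 < p'.2 := by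
    apply int_lt
    linarith
  have h7 := cast_strip (strip_le (h.col p' p h2.1 h1.1 e1.symm) h5)
  nlinarith

theorem tv_dg (h : Lat R L) (h1 : Tv R L k p x y) (h2 : Dg L p' x y) :
    False := by
  obtain ⟨a1, a2⟩ := tv_cell h1
  obtain ⟨b1, b2, b3, b4⟩ := dg_cell h2
  obtain ⟨c1, c2⟩ := tv_bd h1
  have e1 := ecell_eq a1 a2 b1 b2
  have e1' : (p.1 : ℝ) = p'.1 := by rw [e1]
  rw [e1'] at c1 c2
  have d := h2.2.2.2
  have h5 : p.2 < p'.2 := by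
    apply int_lt
    nlinarith
  have h7 := cast_strip (strip_le (h.col p' p h2.1 h1.1 e1.symm) h5)
  nlinarith

theorem th_th (h : Lat R L) (h1 : Th R L k p x y) (h2 : Th R L k' p' x y) :
    k = k' ∧ p = p' := by
  obtain ⟨a1, a2⟩ := th_cell h1
  obtain ⟨b1, b2⟩ := th_cell h2
  have e1 := ecell_eq a1 a2 b1 b2
  have hk : k = k' := by
    apply xi_inj
    have c1 := h1.2.1
    have c2 := h2.2.1
    rw [← e1] at c2
    linarith
  subst hk
  have g1 := h1.2.2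
  have g2 := h2.2.2
  refine ⟨rfl, Prod.ext ?_ e1⟩
  rcases lt_trichotomy p.1 p'.1 with hlt | heq | hlt
  · exfalso
    have h5 := cast_strip (strip_le (h.row p' p h2.1 h1.1 e1.symm) hlt)
    linarith [g1.2, g2.1]
  · exact heq
  · exfalso
    have h5 := cast_strip (strip_le (h.row p p' h1.1 h2.1 e1) hlt)
    linarith [g1.1, g2.2]

/-- a horizontal link does not enter the cell of an obstacle -/
theorem th_obst (h : Lat R L) (h1 : Th R L k p x y) (hL : L p') (b1 : 2 * (p'.1 : ℝ) + 4 < x)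
    (b2 : x < 2 * (p'.1 : ℝ) + 6) (b3 : 2 * (p'.2 : ℝ) + 4 < y) (b4 : y < 2 * (p'.2 : ℝ) + 6) :
    False := by
  obtain ⟨a1, a2⟩ := th_cell h1
  have e1 := ecell_eq a1 a2 b3 b4
  obtain ⟨hLp, -, c1, c2⟩ := h1
  have h5 : p.1 < p'.1 := by
    apply int_lt
    linarith
  have h7 := cast_strip (strip_le (h.row p' p hL hLp e1.symm) h5)
  linarith

theorem th_ts (h : Lat R L) (h1 : Th R L k p x y) (h2 : Ts L k' p' x y) :
    False := by
  obtain ⟨b1, b2, b3, b4, -, -⟩ := ts_cell h2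
  exact th_obst h h1 h2.1 b1 b2 b3 b4

theorem th_te (h : Lat R L) (h1 : Th R L k p x y) (h2 : Te L k' p' x y) :
    False := by
  obtain ⟨b1, b2, b3, b4, -, -⟩ := te_cell h2
  exact th_obst h h1 h2.1 b1 b2 b3 b4

theorem th_dg (h : Lat R L) (h1 : Th R L k p x y) (h2 : Dg L p' x y) :
    False := by
  obtain ⟨b1, b2, b3, b4⟩ := dg_cell h2
  exact th_obst h h1 h2.1 b1 b2 b3 b4

theorem ts_ts (h : Lat R L) (h1 : Ts L k p x y) (h2 : Ts L k' p' x y) :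
    k = k' ∧ p = p' := by
  obtain ⟨a1, a2, a3, a4, -, -⟩ := ts_cell h1
  obtain ⟨b1, b2, b3, b4, -, -⟩ := ts_cell h2
  have e1 := ecell_eq a1 a2 b1 b2
  have e2 := ecell_eq a3 a4 b3 b4
  have e : p = p' := Prod.ext e1 e2
  subst e
  refine ⟨xi_inj ?_, rfl⟩
  have c1 := h1.2.2.2
  have c2 := h2.2.2.2
  have h0 : 0 < 2 * (p.1 : ℝ) + 6 - x := by linarith
  have h3 : (2 * (p.1 : ℝ) + 6 - x) * (xi k - xi k') = 0 := by linarith
  rcases mul_eq_zero.1 h3 with h4 | h4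
  · linarith
  · linarith

theorem ts_te (h : Lat R L) (h1 : Ts L k p x y) (h2 : Te L k' p' x y) :
    False := by
  obtain ⟨a1, a2, a3, a4, a5, -⟩ := ts_cell h1
  obtain ⟨b1, b2, b3, b4, b5, -⟩ := te_cell h2
  have e1 := ecell_eq a1 a2 b1 b2
  have e2 := ecell_eq a3 a4 b3 b4
  rw [e1, e2] at a5
  linarith

theorem ts_dg (h : Lat R L) (h1 : Ts L k p x y) (h2 : Dg L p' x y) :
    False := by
  obtain ⟨a1, a2, a3, a4, a5, -⟩ := ts_cell h1
  obtain ⟨b1, b2, b3, b4⟩ := dg_cell h2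
  have e1 := ecell_eq a1 a2 b1 b2
  have e2 := ecell_eq a3 a4 b3 b4
  have d := h2.2.2.2
  rw [e1, e2] at a5
  linarith

theorem te_te (h : Lat R L) (h1 : Te L k p x y) (h2 : Te L k' p' x y) :
    k = k' ∧ p = p' := by
  obtain ⟨a1, a2, a3, a4, -, -⟩ := te_cell h1
  obtain ⟨b1, b2, b3, b4, -, -⟩ := te_cell h2
  have e1 := ecell_eq a1 a2 b1 b2
  have e2 := ecell_eq a3 a4 b3 b4
  have e : p = p' := Prod.ext e1 e2
  subst e
  refine ⟨xi_inj ?_, rfl⟩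
  have c1 := h1.2.2.2
  have c2 := h2.2.2.2
  have h0 : 0 < x - (2 * (p.1 : ℝ) + 4) := by linarith
  have h3 : (x - (2 * (p.1 : ℝ) + 4)) * (xi k - xi k') = 0 := by linarith
  rcases mul_eq_zero.1 h3 with h4 | h4
  · linarith
  · linarith

theorem te_dg (h : Lat R L) (h1 : Te L k p x y) (h2 : Dg L p' x y) :
    False := by
  obtain ⟨a1, a2, a3, a4, a5, -⟩ := te_cell h1
  obtain ⟨b1, b2, b3, b4⟩ := dg_cell h2
  have e1 := ecell_eq a1 a2 b1 b2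
  have e2 := ecell_eq a3 a4 b3 b4
  have d := h2.2.2.2
  rw [e1, e2] at a5
  linarith

theorem dg_dg (h : Lat R L) (h1 : Dg L p x y) (h2 : Dg L p' x y) :
    p = p' := by
  obtain ⟨a1, a2, a3, a4⟩ := dg_cell h1
  obtain ⟨b1, b2, b3, b4⟩ := dg_cell h2
  exact Prod.ext (ecell_eq a1 a2 b1 b2) (ecell_eq a3 a4 b3 b4)

end Pool.Agent.Helper29.DG3
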