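import Pool.Agent.Helper7.DG3.PairsV
import Pool.Agent.Helper60.DG3.PairsVE
import Pool.Agent.Helper29.DG3.PairsEE

/-!
# Threads: all 44 statements on pairs of vertices and edges (three blocks)

* vertices against vertices: `Pool.Agent.Helper7.DG3.PairsV`
* vertices against edges: `Pool.Agent.Helper60.DG3.PairsVE`
* edges against edges: `Pool.Agent.Helper29.DG3.PairsEE`
-/
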